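import Pool.Agent.H38.ER.Defs2

/-!
The art gallery problem for semialgebraic galleries.
-/

namespace Pool.Agent.H38.Gal

open Pool.Agent.H38.ER

/-- `(k, φ)` stands for the sentence: there are values of the variables `0, …, k - 1` such that `φ`
holds for all values of the other variables. -/
def EA (p : ℕ × Fm) : Prop := ∃ x : ℕ → ℝ, ∀ y : ℕ → ℝ, (∀ i < p.1, y i = x i) → p.2.Holds y

/-- The subset of `ℝ ^ d` defined by `φ`; variables with an index `≥ d` are read as zero. -/
def sa (d : ℕ) (φ : Fm) : Set (Fin d → ℝ) :=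
  {v | φ.Holds fun i => if h : i < d then v ⟨i, h⟩ else 0}

/-- `(d, φ, k)`: the gallery `sa d φ` contains `k` points such that every point of the gallery is
joined to one of them by a closed segment inside the gallery. -/
def Guard (p : ℕ × Fm × ℕ) : Prop := ∃ G : Finset (Fin p.1 → ℝ), G.card = p.2.2 ∧
  (∀ g ∈ G, g ∈ sa p.1 p.2.1) ∧ ∀ a ∈ sa p.1 p.2.1, ∃ g ∈ G, segment ℝ a g ⊆ sa p.1 p.2.1

end Pool.Agent.H38.Gal
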