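import Pool.Agent.H38.Gal.Defs
import Pool.Agent.H38.ER.Surj

/-!
Two guards in a semialgebraic gallery encode an existential and a universal block of quantifiers.
-/

namespace Pool.Agent.H38.Gal

open Pool.Agent.H38.NP Pool.Agent.H38.ER

def gal (k n : ℕ) (c : List Q4) : Fm :=
  (Fm.eq ((Tm.var n).mul (.var (n + 1))) ((Tm.var 0).mul (.var 0))).and
    (((Fm.eq (.var (n + 1)) (.num 0)).and ((Fm.eq (.var n) (.num 0)).and
      ((Fm.eq (.var (n + 2)) (.num 0)).or (Fm.lt (.var (n + 2)) (.num 1)).not))).or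
    (((Fm.eq (.var (n + 1)) (.num 1)).and ((Fm.eq (.var (n + 2)) (.num 0)).and
      (allF ((List.range k).map fun i => .eq (.var (1 + i)) (.num 0))))).or
    ((Fm.lt (.num 0) (.var (n + 1))).and ((Fm.lt (.var (n + 2)) (.num 0)).not.and
      ((Fm.lt ((Tm.var (n + 1)).add (.var (n + 2))) (.num 1)).and
        ((Fm.eq (.var (n + 2)) (.num 0)).and ((Fm.eq ((Tm.var (n + 1)).add (.var (n + 1)))
          (.num 1)).and (sysFm c))).not)))))

def In (k n : ℕ) (c : List Q4) (u : ℕ → ℝ) : Prop := u n * u (n + 1) = u 0 * u 0 ∧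
  (u (n + 1) = 0 ∧ u n = 0 ∧ (u (n + 2) = 0 ∨ 1 ≤ u (n + 2)) ∨
    u (n + 1) = 1 ∧ u (n + 2) = 0 ∧ (∀ i < k, u (1 + i) = 0) ∨
    0 < u (n + 1) ∧ 0 ≤ u (n + 2) ∧ u (n + 1) + u (n + 2) < 1 ∧
      ¬ (u (n + 2) = 0 ∧ u (n + 1) + u (n + 1) = 1 ∧ u 0 = 1 ∧ Sat u c))

theorem holds_gal {k n c u} : (gal k n c).Holds u ↔ In k n c u := by
  simp only [gal, In, Fm.Holds, Tm.ev, holds_allF, holds_sysFm, List.forall_mem_map, List.mem_range,
    Nat.cast_zero, Nat.cast_one, not_lt]

noncomputable def ex {d : ℕ} (v : Fin d → ℝ) (i : ℕ) : ℝ := if h : i < d then v ⟨i, h⟩ else 0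

theorem mem_sa {d k n c} {v : Fin d → ℝ} : v ∈ sa d (gal k n c) ↔ In k n c (ex v) := holds_gal

theorem seg {d k n c} {a g : Fin d → ℝ} : segment ℝ a g ⊆ sa d (gal k n c) ↔
    ∀ s : ℝ, 0 ≤ s → s ≤ 1 → In k n c fun i => (1 - s) * ex a i + s * ex g i := by
  rw [segment_eq_image, Set.image_subset_iff]
  refine forall_congr' fun s => ?_
  rw [Set.mem_Icc, and_imp, Set.mem_preimage, mem_sa,
    show ex ((1 - s) • a + s • g) = fun i => (1 - s) * ex a i + s * ex g i from
      funext fun i => by unfold ex; split_ifs <;> simp]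

theorem ex_res {d} (u : ℕ → ℝ) {i} (h : i < d) : ex (fun i : Fin d => u i) i = u i := dif_pos h

theorem core {k n c} (hn : 1 + k ≤ n) (hb : Bd n c) :
    (∃ x : ℕ → ℝ, ∀ u : ℕ → ℝ, u 0 = 1 → (∀ i < k, u (1 + i) = x i) → ¬ Sat u c) ↔
      Guard (n + 3, gal k n c, 2) := by
  classical
  simp only [Guard, mem_sa, seg]
  have pt : ∀ u : ℕ → ℝ, ∃ v : Fin (n + 3) → ℝ, ∀ i < n + 3, ex v i = u i :=
    fun u => ⟨_, fun i => ex_res u⟩
  constructor
  · rintro ⟨x, hx⟩
    obtain ⟨g, hg⟩ := pt fun i => if 1 ≤ i ∧ i < 1 + k then 2 * x (i - 1) else 0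
    obtain ⟨g0, g1, g2, g3, g4⟩ : ex g 0 = 0 ∧ ex g n = 0 ∧
        ex g (n + 1) = 0 ∧ ex g (n + 2) = 0 ∧ ∀ i < k, ex g (1 + i) = 2 * x i := by
      refine ⟨?_, ?_, ?_, ?_, fun i hi => ?_⟩ <;> rw [hg _ (by omega)]
      exacts [if_neg (by omega), if_neg (by omega), if_neg (by omega), if_neg (by omega),
        by simp [hi]]
    obtain ⟨a, ha⟩ := pt fun i => if i = n + 2 then 1 else 0
    obtain ⟨a0, a1, a2, a3⟩ : ex a 0 = 0 ∧ ex a n = 0 ∧ ex a (n + 1) = 0 ∧ ex a (n + 2) = 1 := by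
      simp [ha]
    clear hg ha
    refine ⟨{a, g}, Finset.card_pair fun e => by rw [e, g3] at a3; simp at a3, ?_, fun p hp => ?_⟩
    · simp [In, *]
    simp only [Finset.mem_insert, Finset.mem_singleton, exists_eq_or_imp, exists_eq_left]
    obtain ⟨e, ⟨h1, h2, h3 | h3⟩ | ⟨h1, h2, h3⟩ | ⟨h1, h2, h3, h4⟩⟩ := id hp
    · refine .inr fun s _ _ => ?_
      have : ex p 0 = 0 := by simpa [h1] using e.symm
      simp [In, *]
    · refine .inl fun s _ _ => ?_
      have : ex p 0 = 0 := by simpa [h1] using e.symm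
      refine ⟨by simp [*], .inl ⟨by simp [*], by simp [*], .inr ?_⟩⟩
      simp only [a3]; nlinarith
    · refine .inr fun s s0 s1 => ⟨by simp only [g0, g1, g2]; linear_combination (1 - s) ^ 2 * e, ?_⟩
      simp only [g0, g1, g2, g3, h1, h2, mul_zero, add_zero, mul_one]
      rcases s0.eq_or_lt with rfl | s0
      · exact .inr (.inl ⟨by simp, trivial, by simpa using h3⟩)
      rcases s1.eq_or_lt with rfl | s1
      · simp
      refine .inr (.inr ⟨by linarith, le_rfl, by linarith, fun ⟨_, k1, k2, k3⟩ =>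
        hx _ (by simpa [g0] using k2) (fun i hi => ?_) k3⟩)
      rw [h3 i hi, g4 i hi]; linear_combination (-x i) * k1
    · refine .inl fun s s0 s1 => ?_
      rcases s0.eq_or_lt with rfl | s0
      · simpa using hp
      refine ⟨by simp only [a0, a1, a2]; linear_combination (1 - s) ^ 2 * e, ?_⟩
      simp only [a0, a1, a2, a3, mul_zero, add_zero, mul_one]
      rcases s1.eq_or_lt with rfl | s1
      · simp
      have := mul_nonneg (sub_nonneg.2 s1.le) h2
      exact .inr (.inr ⟨mul_pos (by linarith) h1, by linarith, by nlinarith, fun k => by linarith [k.1]⟩)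
  · rintro ⟨G, hG, hS, h⟩
    obtain ⟨b, hb'⟩ := pt fun i => if i = n + 2 then 2 else 0
    have b0 : ex b 0 = 0 ∧ ex b n = 0 ∧ ex b (n + 1) = 0 ∧ ex b (n + 2) = 2 := by simp [hb']
    obtain ⟨a, ha, ka⟩ := h b (by simp [In, b0])
    have a1 : ex a (n + 1) = 0 ∧ 1 ≤ ex a (n + 2) := by
      have k1 := (ka (1 / 4) (by norm_num) (by norm_num)).2
      have k2 := (ka (3 / 4) (by norm_num) (by norm_num)).2
      have k3 := (hS a ha).2
      simp only [b0] at k1 k2
      have : ex a (n + 1) = 0 := by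
        rcases k3 with ⟨_, _, _ | _⟩ | ⟨_, _, -⟩ | ⟨_, _, _, -⟩ <;>
          rcases k1 with ⟨_, -⟩ | ⟨_, _, -⟩ | ⟨_, _, _, -⟩ <;> linarith
      refine ⟨this, ?_⟩
      rcases k3 with ⟨-, -, k3 | k3⟩ | k3 | k3
      · rcases k2 with ⟨-, -, k2 | k2⟩ | k2 | k2 <;> first | linarith | linarith [k2.1]
      · exact k3
      all_goals linarith [k3.1]
    obtain ⟨g, hg⟩ : ∃ g, ∀ z ∈ G, z ≠ a → z = g := by
      obtain ⟨x, y, -, rfl⟩ := Finset.card_eq_two.1 hG
      simp only [Finset.mem_insert, Finset.mem_singleton] at ha ⊢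
      rcases ha with rfl | rfl
      exacts [⟨y, by grind⟩, ⟨x, by grind⟩]
    have key : ∀ u : ℕ → ℝ, g ∈ G ∧ ∃ w : ℕ → ℝ, In k n c w ∧ ∀ i < n + 3,
        w i = (if i = n then u 0 * u 0 else if i = n + 1 then 1 else if i = n + 2 then 0 else
          if 1 ≤ i ∧ i < 1 + k then 0 else u i) / 2 + ex g i / 2 := fun u => by
      obtain ⟨p, hp⟩ := pt fun i => if i = n then u 0 * u 0 else if i = n + 1 then 1 else
        if i = n + 2 then 0 else if 1 ≤ i ∧ i < 1 + k then 0 else u i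
      have p0 : ex p (n + 1) = 1 ∧ ex p (n + 2) = 0 := by simp [hp]
      obtain ⟨z, hz, kz⟩ := h p ⟨by simp [hp, show ¬ 0 = n by omega], .inr (.inl ⟨p0.1, p0.2,
        fun i hi => by simp (disch := omega) [hp, if_neg, hi]⟩)⟩
      have kz := kz (1 / 2) (by norm_num) (by norm_num)
      obtain rfl := hg z hz fun e => by
        have k := kz.2
        simp only [e, p0, a1.1] at k
        rcases k with ⟨_, -⟩ | ⟨_, -⟩ | ⟨-, -, _, -⟩ <;> linarith [a1.2]
      exact ⟨hz, _, kz, fun i hi => by rw [hp i hi]; ring⟩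
    have gS := hS g (key 0).1
    have e : ∀ t : ℝ, (t * t + ex g n) * (1 + ex g (n + 1)) = (t + ex g 0) * (t + ex g 0) := fun t => by
      obtain ⟨w, k, e⟩ := (key fun _ => t).2
      have := k.1
      simp [e, show ¬ 0 = n by omega] at this
      linear_combination 4 * this
    have t0 : ex g (n + 1) = 0 := by linear_combination (e 1 + e (-1) - 2 * e 0) / 2
    have g0 : ex g 0 = 0 := by linear_combination (e (-1) - e 1) / 4
    refine ⟨fun i => ex g (1 + i) / 2, fun u u0 hu hs => ?_⟩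
    obtain ⟨w, ⟨-, kw⟩, e⟩ := (key fun i => 2 * u i - ex g i).2
    have w1 : w (n + 1) = 1 / 2 := by simp [e, t0]
    have w2 : w (n + 2) = ex g (n + 2) / 2 := by simp [e]
    have w3 : ∀ i < n, w i = u i := fun i hi => by
      rw [e i (by omega), if_neg (by omega), if_neg (by omega), if_neg (by omega)]
      split_ifs with h
      · have := hu (i - 1) (by omega)
        beta_reduce at this
        rw [show 1 + (i - 1) = i by omega] at this
        simp [this]
      · ring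
    rcases kw with k | k | k
    · linarith [k.1]
    · linarith [k.1]
    refine k.2.2.2 ⟨?_, by linarith, by rw [w3 _ (by omega), u0], hs.congr hb w3⟩
    rcases gS.2 with ⟨-, -, j | j⟩ | j | j <;> first | linarith [k.2.2.1] | linarith [j.1]

theorem gal_hard : QHardOn EA (fun p : ℕ × Fm × ℕ => p.2.2 = 2) Guard := by
  refine qhard_of_pt (fun p => (1 + p.1 + fN p.2.not + 3,
    gal p.1 (1 + p.1 + fN p.2.not) (embA p.2.not p.1), 2))
    ?_ (0, .lt (.num 0) (.num 0)) (fun ⟨x, h⟩ => lt_irrefl _ (h x (by simp))) ?_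
  · have : PT fun p : ℕ × Fm => embA p.2.not p.1 :=
      pt_embA.comp (g := fun p : ℕ × Fm => (p.1, p.2.not)) (by fun_prop)
    unfold gal; fun_prop
  rintro ⟨k, φ⟩
  refine ⟨rfl, Iff.trans (exists_congr fun x => ?_) (core (by omega) (embA_bd φ.not k))⟩
  have := (embA_iff φ.not k x).not
  simpa [Fm.Holds] using this

end Pool.Agent.H38.Gal
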